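import Pool.Agent.H305R3.FC9

set_option autoImplicit false

open MeasureTheory Set
open Pool.Agent.H305R3.FC

/-- Uniqueness from partial data on one nonempty open exterior set `W` for the fractional
conductivity equation with uniformly elliptic `L^∞(ℝ^n)` conductivities (no regularity assumed),
for all `n ≥ 1`, all `0 < s < 1` and all open `Ω` bounded in one direction. -/
theorem Pool.Agent.Results.MP_72af2c_an.PartialDataUniqueness.result :
    ∀ (n : ℕ) (s : ℝ), 1 ≤ n → 0 < s → s < 1 →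
    ∀ Ω : Set (EuclideanSpace ℝ (Fin n)), IsOpen Ω → BddOneDir Ω →
    ∀ γ₁ γ₂ : EuclideanSpace ℝ (Fin n) → ℝ, Elliptic γ₁ → Elliptic γ₂ →
    ∀ W : Set (EuclideanSpace ℝ (Fin n)), IsOpen W → W.Nonempty → W ⊆ (closure Ω)ᶜ →
    (∀ f g : EuclideanSpace ℝ (Fin n) → ℝ, TestFun W f → TestFun W g →
      ∀ u₁ u₂ : EuclideanSpace ℝ (Fin n) → ℝ, IsSol s Ω γ₁ f u₁ → IsSol s Ω γ₂ f u₂ →
        Bform s γ₁ u₁ g = Bform s γ₂ u₂ g) →
    γ₁ =ᵐ[volume] γ₂ := by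
  intro n s hn hs hs1 Ω hΩ hb γ₁ γ₂ h1 h2 W hW hWne hWΩ hDN
  exact main hn hs hs1 hΩ hb hW hWne hWΩ h1 h2 hDN
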